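import Pool.Agent.W606.UB.Stm

set_option autoImplicit false

/-! The join of two separated polygons is a polygon. -/

namespace KN.UB

theorem path_eq_dropLast_append (w : List Dir) : path w = (path w).dropLast ++ [0] := by
  conv_lhs => rw [← List.dropLast_append_getLast (path_ne_nil w), path_getLast]

theorem path_append_single (w : List Dir) (d : Dir) :
    path (w ++ [d]) = (path w).map (fun p => p + vec d) ++ [0] := by
  rw [path_append]
  conv_rhs => rw [path_eq_dropLast_append w]
  simp [path, pos]

theorem path_append_gen (w u : List Dir) :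
    path (w ++ u) = (path w).map (fun p => p + pos u) ++ (path u).tail := by
  rw [path_append]
  conv_rhs => rw [path_eq_dropLast_append w]
  rw [List.map_append, List.append_assoc]
  congr 1
  cases u with
  | nil => simp [path, pos]
  | cons d l => simp [path, pos]

theorem path_join (l1 v : List Dir) (hv : pos v = (0, 0, 1)) :
    path (join l1 v []) = (path l1).map (fun p => p + (0, 0, 1)) ++
      ((path v).map (fun p => p + (1, 0, 0)) ++ [0]) := by
  unfold join
  rw [path_append_gen]
  have h1 : pos (Dir.xm :: (v ++ [Dir.xp])) = (0, 0, 1) := by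
    rw [pos, pos_append, hv]
    simp [pos, vec]
  rw [h1]
  congr 1
  rw [path, List.tail_cons, path_append_single]
  rfl

theorem sap_main : P_sap := by
  intro l1 v h
  obtain ⟨hl, hr, hsep⟩ := h
  obtain ⟨hl1, hl2, hl3⟩ := hl
  obtain ⟨hr1, hr2, hr3⟩ := hr
  have hv : pos v = (0, 0, 1) := by
    rw [pos] at hr2
    have h2 : pos v = -vec .zm := eq_neg_of_add_eq_zero_left hr2
    rw [h2]
    rfl
  have hl' : pos l1 = (0, 0, -1) := by
    rw [pos_append] at hl2
    have h2 : pos l1 = -pos [Dir.zp] := eq_neg_of_add_eq_zero_left hl2
    rw [h2]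
    simp [pos, vec]
  have hpath := path_join l1 v hv
  have hleft := path_append_single l1 .zp
  have hvec : vec Dir.zp = (0, 0, 1) := rfl
  rw [hvec] at hleft
  refine ⟨?_, ?_, ?_⟩
  · simp only [join, List.length_append, List.length_cons, List.length_nil] at hl1 ⊢
    omega
  · unfold join
    rw [pos_append, pos, pos_append, hv, hl']
    simp [pos, vec]
  · rw [hpath]
    have hne : (path l1).map (fun p => p + ((0, 0, 1) : Z3)) ≠ [] := by
      simp [path_ne_nil]
    rw [List.tail_append_of_ne_nil hne]
    rw [hleft, List.tail_append_of_ne_nil hne] at hl3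
    have hr4 : (path v).Nodup := by
      simpa [path] using hr3
    have hsub : ∀ p ∈ ((path l1).map (fun p => p + ((0, 0, 1) : Z3))).tail,
        p ∈ path (l1 ++ [.zp]) := by
      intro p hp
      rw [hleft]
      exact List.mem_append_left _ (List.mem_of_mem_tail hp)
    have hno : ∀ p ∈ path (l1 ++ [.zp]), p ∉ (path v).map (fun p => p + ((1, 0, 0) : Z3)) := by
      intro p hp hq
      obtain ⟨q, hq, hqp⟩ := List.mem_map.1 hq
      have h1 : p.2 = q.2 := by
        rw [← hqp]
        simp
      have h2 := hsep p hp q hq h1
      rw [← hqp] at h2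
      simp at h2
      omega
    rw [List.nodup_append] at hl3 ⊢
    refine ⟨hl3.1, ?_, ?_⟩
    · rw [List.nodup_append]
      refine ⟨?_, List.nodup_singleton _, ?_⟩
      · exact hr4.map (fun a b hab => by simpa using hab)
      · intro a ha b hb hab
        rw [List.mem_singleton] at hb
        rw [hab, hb] at ha
        exact hno 0 (zero_mem_path _) ha
    · intro a ha b hb hab
      rw [List.mem_append] at hb
      rcases hb with hb | hb
      · rw [← hab] at hb
        exact hno a (hsub a ha) hb
      · exact hl3.2.2 a ha b hb hab

end KN.UB
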